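import Mathlib

/-! Rank functions on a group and the finite expansion of an element along the ranks. -/

open Cardinal Set

namespace TH444.OR

universe u

/-- a rank function on a group: the elements of rank at most a given one form a subgroup -/
structure Rk (G : Type u) [Group G] where
  r : G → Ordinal.{u}
  mul_le : ∀ x y, r (x * y) ≤ max (r x) (r y)
  inv_eq : ∀ x, r x⁻¹ = r x

namespace Rk

variable {G : Type u} [Group G] (ρ : Rk G)

lemma one_le (x : G) : ρ.r 1 ≤ ρ.r x := by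
  have := ρ.mul_le x x⁻¹
  rw [ρ.inv_eq] at this
  simpa using this

lemma mul_eq {x y : G} (h : ρ.r x < ρ.r y) : ρ.r (x * y) = ρ.r y := by
  apply le_antisymm
  · exact (ρ.mul_le x y).trans (max_le h.le le_rfl)
  · have := ρ.mul_le x⁻¹ (x * y)
    rw [inv_mul_cancel_left, ρ.inv_eq] at this
    rcases le_max_iff.1 this with h1 | h1
    · exact absurd h1 (not_le.2 h)
    · exact h1

lemma mul_eq' {x y : G} (h : ρ.r x < ρ.r y) : ρ.r (y * x) = ρ.r y := by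
  have h1 := ρ.mul_eq (x := x⁻¹) (y := y⁻¹) (by rwa [ρ.inv_eq, ρ.inv_eq])
  rw [ρ.inv_eq, ← mul_inv_rev, ρ.inv_eq] at h1
  exact h1

lemma mul_le_of {x y : G} {i : Ordinal.{u}} (hx : ρ.r x ≤ i) (hy : ρ.r y ≤ i) :
    ρ.r (x * y) ≤ i := (ρ.mul_le x y).trans (max_le hx hy)

/-- the coset relation -/
def rel (x y : G) : Prop := x = y ∨ (ρ.r x = ρ.r y ∧ ρ.r (x * y⁻¹) < ρ.r x)

lemma rel_symm {x y : G} (h : ρ.rel x y) : ρ.rel y x := by
  rcases h with rfl | ⟨h1, h2⟩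
  · exact Or.inl rfl
  · refine Or.inr ⟨h1.symm, ?_⟩
    have : y * x⁻¹ = (x * y⁻¹)⁻¹ := by group
    rw [this, ρ.inv_eq, ← h1]
    exact h2

lemma rel_trans {x y z : G} (h : ρ.rel x y) (h' : ρ.rel y z) : ρ.rel x z := by
  rcases h with rfl | ⟨h1, h2⟩
  · exact h'
  · rcases h' with rfl | ⟨h3, h4⟩
    · exact Or.inr ⟨h1, h2⟩
    · refine Or.inr ⟨h1.trans h3, ?_⟩
      have : x * z⁻¹ = (x * y⁻¹) * (y * z⁻¹) := by group
      rw [this]
      refine (ρ.mul_le _ _).trans_lt (max_lt h2 ?_)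
      rw [h1]; exact h4

/-- the coset relation as a setoid -/
def setoid : Setoid G where
  r := ρ.rel
  iseqv := ⟨fun _ => Or.inl rfl, ρ.rel_symm, ρ.rel_trans⟩

/-- the chosen representative -/
noncomputable def t (z : G) : G := (Quotient.mk ρ.setoid z).out

lemma t_rel (z : G) : ρ.rel (ρ.t z) z := Quotient.exact (Quotient.out_eq (Quotient.mk ρ.setoid z))

lemma t_congr {x y : G} (h : ρ.rel x y) : ρ.t x = ρ.t y := by
  unfold t
  rw [Quotient.sound (s := ρ.setoid) h]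

/-- what remains of `z` when its top letter is removed -/
noncomputable def Th (z : G) : G := z * (ρ.t z)⁻¹

lemma Th_lt {z : G} (h : ρ.r 1 < ρ.r z) : ρ.r (ρ.Th z) < ρ.r z := by
  unfold Th
  rcases ρ.rel_symm (ρ.t_rel z) with h1 | ⟨_, h2⟩
  · rw [← h1, mul_inv_cancel]; exact h
  · exact h2

lemma t_mul {x z : G} (h : ρ.r x < ρ.r z) : ρ.t (x * z) = ρ.t z := by
  apply ρ.t_congr
  refine Or.inr ⟨ρ.mul_eq h, ?_⟩
  rw [mul_inv_cancel_right, ρ.mul_eq h]
  exact h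

lemma Th_mul {x z : G} (h : ρ.r x < ρ.r z) : ρ.Th (x * z) = x * ρ.Th z := by
  unfold Th
  rw [ρ.t_mul h, mul_assoc]

open Classical in
/-- the set of ranks of the expansion of `z` -/
noncomputable def R (z : G) : Finset Ordinal.{u} :=
  if h : ρ.r 1 < ρ.r z then insert (ρ.r z) (R (ρ.Th z)) else ∅
termination_by ρ.r z
decreasing_by exact ρ.Th_lt h

open Classical in
/-- the part of `z` up to rank `j` -/
noncomputable def pr (j : Ordinal.{u}) (z : G) : G :=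
  if h : ρ.r 1 < ρ.r z ∧ j < ρ.r z then pr j (ρ.Th z) else z
termination_by ρ.r z
decreasing_by exact ρ.Th_lt h.1

open Classical in
lemma R_pos {z : G} (h : ρ.r 1 < ρ.r z) : ρ.R z = insert (ρ.r z) (ρ.R (ρ.Th z)) := by
  rw [R]; simp [h]

lemma R_neg {z : G} (h : ¬ ρ.r 1 < ρ.r z) : ρ.R z = ∅ := by
  rw [R]; simp [h]

lemma pr_pos {j : Ordinal.{u}} {z : G} (h : ρ.r 1 < ρ.r z) (h' : j < ρ.r z) :
    ρ.pr j z = ρ.pr j (ρ.Th z) := by
  rw [pr]; simp [h, h']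

lemma pr_of_le {j : Ordinal.{u}} {z : G} (h : ρ.r z ≤ j) : ρ.pr j z = z := by
  rw [pr]; simp [not_lt.2 h]

lemma pr_neg {j : Ordinal.{u}} {z : G} (h : ¬ ρ.r 1 < ρ.r z) : ρ.pr j z = z := by
  rw [pr]; simp [h]

theorem ind {P : G → Prop} (h0 : ∀ z, ¬ ρ.r 1 < ρ.r z → P z)
    (h1 : ∀ z, ρ.r 1 < ρ.r z → P (ρ.Th z) → P z) (z : G) : P z := by
  induction hz : ρ.r z using WellFoundedLT.induction generalizing z with
  | ind o ih =>
    by_cases h : ρ.r 1 < ρ.r z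
    · exact h1 z h (ih _ (hz ▸ ρ.Th_lt h) _ rfl)
    · exact h0 z h

lemma mem_R {z : G} {i : Ordinal.{u}} (hi : i ∈ ρ.R z) :
    ρ.r 1 < i ∧ i ≤ ρ.r z ∧ i ∈ range ρ.r := by
  classical
  induction z using ρ.ind with
  | h0 z h => rw [ρ.R_neg h] at hi; simp at hi
  | h1 z h ih =>
    rw [ρ.R_pos h, Finset.mem_insert] at hi
    rcases hi with rfl | hi
    · exact ⟨h, le_rfl, z, rfl⟩
    · obtain ⟨h2, h3, h4⟩ := ih hi
      exact ⟨h2, h3.trans (ρ.Th_lt h).le, h4⟩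

lemma top_mem {z : G} (h : ρ.r 1 < ρ.r z) : ρ.r z ∈ ρ.R z := by
  classical
  rw [ρ.R_pos h]; exact Finset.mem_insert_self _ _

lemma pr_le {j : Ordinal.{u}} (hj : ρ.r 1 ≤ j) (z : G) : ρ.r (ρ.pr j z) ≤ j := by
  induction z using ρ.ind with
  | h0 z h => rw [ρ.pr_neg h]; exact (not_lt.1 h).trans hj
  | h1 z h ih =>
    by_cases h' : j < ρ.r z
    · rw [ρ.pr_pos h h']; exact ih
    · rw [ρ.pr_of_le (not_lt.1 h')]; exact not_lt.1 h'

lemma pr_mul {j : Ordinal.{u}} {x : G} (hx : ρ.r x ≤ j) (z : G) :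
    ρ.pr j (x * z) = x * ρ.pr j z := by
  induction z using ρ.ind with
  | h0 z h =>
    rw [ρ.pr_neg h]
    apply ρ.pr_of_le
    exact ρ.mul_le_of hx ((not_lt.1 h).trans ((ρ.one_le x).trans hx))
  | h1 z h ih =>
    by_cases h' : j < ρ.r z
    · have h2 := ρ.mul_eq (hx.trans_lt h')
      rw [ρ.pr_pos h h', ← ih, ρ.pr_pos (by rw [h2]; exact h) (by rw [h2]; exact h'),
        ρ.Th_mul (hx.trans_lt h')]
    · rw [ρ.pr_of_le (not_lt.1 h')]
      exact ρ.pr_of_le (ρ.mul_le_of hx (not_lt.1 h'))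

lemma R_pr (j : Ordinal.{u}) (z : G) : ρ.R (ρ.pr j z) = (ρ.R z).filter (· ≤ j) := by
  classical
  induction z using ρ.ind with
  | h0 z h => rw [ρ.pr_neg h, ρ.R_neg h]; rfl
  | h1 z h ih =>
    by_cases h' : j < ρ.r z
    · rw [ρ.pr_pos h h', ih, ρ.R_pos h, Finset.filter_insert, if_neg (not_le.2 h')]
    · rw [ρ.pr_of_le (not_lt.1 h'), eq_comm, Finset.filter_eq_self]
      intro i hi
      exact (ρ.mem_R hi).2.1.trans (not_lt.1 h')

lemma R_mul_gt {j : Ordinal.{u}} {x : G} (hx : ρ.r x ≤ j) (z : G) :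
    (ρ.R (x * z)).filter (j < ·) = (ρ.R z).filter (j < ·) := by
  classical
  induction z using ρ.ind with
  | h0 z h =>
    have h1 : ρ.r z ≤ j := (not_lt.1 h).trans ((ρ.one_le x).trans hx)
    have h2 : ρ.r (x * z) ≤ j := ρ.mul_le_of hx h1
    rw [Finset.filter_eq_empty_iff.2, Finset.filter_eq_empty_iff.2]
    · intro i hi; exact not_lt.2 ((ρ.mem_R hi).2.1.trans h1)
    · intro i hi; exact not_lt.2 ((ρ.mem_R hi).2.1.trans h2)
  | h1 z h ih =>
    by_cases h' : j < ρ.r z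
    · have h2 := ρ.mul_eq (hx.trans_lt h')
      rw [ρ.R_pos h, ρ.R_pos (by rw [h2]; exact h), Finset.filter_insert, Finset.filter_insert,
        h2, if_pos h', if_pos h', ρ.Th_mul (hx.trans_lt h'), ih]
    · have h1 : ρ.r z ≤ j := not_lt.1 h'
      have h2 : ρ.r (x * z) ≤ j := ρ.mul_le_of hx h1
      rw [Finset.filter_eq_empty_iff.2, Finset.filter_eq_empty_iff.2]
      · intro i hi; exact not_lt.2 ((ρ.mem_R hi).2.1.trans h1)
      · intro i hi; exact not_lt.2 ((ρ.mem_R hi).2.1.trans h2)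

lemma pr_pr {j j' : Ordinal.{u}} (hj : j ≤ j') (z : G) :
    ρ.pr j (ρ.pr j' z) = ρ.pr j z := by
  induction z using ρ.ind with
  | h0 z h => rw [ρ.pr_neg h]
  | h1 z h ih =>
    by_cases h' : j' < ρ.r z
    · rw [ρ.pr_pos h h', ih, ρ.pr_pos h (hj.trans_lt h')]
    · rw [ρ.pr_of_le (not_lt.1 h')]

lemma pr_eq_of_gap {j j' : Ordinal.{u}} (hj : j ≤ j') (z : G)
    (hgap : ∀ i ∈ ρ.R z, ¬ (j < i ∧ i ≤ j')) : ρ.pr j' z = ρ.pr j z := by
  classical
  induction z using ρ.ind with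
  | h0 z h => rw [ρ.pr_neg h, ρ.pr_neg h]
  | h1 z h ih =>
    by_cases h' : j' < ρ.r z
    · rw [ρ.pr_pos h h', ρ.pr_pos h (hj.trans_lt h')]
      apply ih
      intro i hi
      apply hgap
      rw [ρ.R_pos h]
      exact Finset.mem_insert_of_mem hi
    · rw [ρ.pr_of_le (not_lt.1 h')]
      have h2 := hgap _ (ρ.top_mem h)
      push Not at h2
      have h3 : ρ.r z ≤ j := by
        by_contra hcon
        exact absurd (h2 (not_le.1 hcon)) (not_lt.2 (not_lt.1 h'))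
      rw [ρ.pr_of_le h3]

lemma R_mul_split {j : Ordinal.{u}} {x : G} (hx : ρ.r x ≤ j) (z : G) :
    (ρ.R (x * z)).filter (· ≤ j) = ρ.R (x * ρ.pr j z) := by
  rw [← ρ.R_pr, ρ.pr_mul hx]

end Rk

end TH444.OR
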