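import Mathlib
import Pool.Agent.TH444.OR.Rk

/-! Roots of a large set: elements of `W` of arbitrarily large rank whose products with a fixed
finite sequence have prescribed lower parts. -/

open Cardinal Set

namespace TH444.OR

universe u

namespace Rk

variable {G : Type u} [Group G] (ρ : Rk G)

/-- all rank segments are small -/
def Small : Prop := ∀ x, #{y | ρ.r y ≤ ρ.r x} < #G

/-- `a` is above the first terms of the root -/
def Ab (γ : ℕ → G) (n : ℕ) (a : G) : Prop := ∀ i ≤ n, ρ.r (γ i) ≤ ρ.r a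

/-- `y` is above `a` and the products with the root have the next terms as lower parts -/
def Gd (γ : ℕ → G) (n : ℕ) (a y : G) : Prop :=
  ρ.r a < ρ.r y ∧ ∀ i < n, ρ.pr (ρ.r a) (y * γ i) = γ (i + 1)

/-- `P` has good elements above every bound -/
def Pos (γ : ℕ → G) (n : ℕ) (P : Set G) : Prop := ∀ a, ρ.Ab γ n a → ∃ y ∈ P, ρ.Gd γ n a y

variable {ρ}

lemma Pos.mono {γ : ℕ → G} {n : ℕ} {P P' : Set G} (h : ρ.Pos γ n P) (hP : P ⊆ P') :
    ρ.Pos γ n P' := fun a ha => by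
  obtain ⟨y, hy, hg⟩ := h a ha
  exact ⟨y, hP hy, hg⟩

lemma Ab.mono {γ : ℕ → G} {n : ℕ} {a b : G} (h : ρ.Ab γ n a) (hab : ρ.r a ≤ ρ.r b) :
    ρ.Ab γ n b := fun i hi => (h i hi).trans hab

lemma Gd.mono {γ : ℕ → G} {n : ℕ} {a b y : G} (ha : ρ.Ab γ n a) (hab : ρ.r a ≤ ρ.r b)
    (h : ρ.Gd γ n b y) : ρ.Gd γ n a y := by
  refine ⟨hab.trans_lt h.1, fun i hi => ?_⟩
  rw [← ρ.pr_pr hab, h.2 i hi]
  exact ρ.pr_of_le (ha (i + 1) hi)

/-- fewer than `#G` ranks are bounded -/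
lemma exists_bound (hs : ρ.Small) (hreg : (#G).IsRegular) (A : Set G) (hA : #A < #G) :
    ∃ b, ∀ a ∈ A, ρ.r a < ρ.r b := by
  have h1 : #(⋃ a ∈ A, {y | ρ.r y ≤ ρ.r a}) < #G := by
    rw [card_biUnion_lt_iff_forall_of_isRegular hreg hA]
    intro a _
    exact hs a
  by_contra hcon
  push Not at hcon
  have h2 : (⋃ a ∈ A, {y | ρ.r y ≤ ρ.r a}) = Set.univ := by
    rw [eq_univ_iff_forall]
    intro b
    obtain ⟨a, ha, hab⟩ := hcon b
    exact mem_biUnion ha hab
  rw [h2, mk_univ] at h1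
  exact lt_irrefl _ h1

lemma exists_bound_seq (hs : ρ.Small) (hreg : (#G).IsRegular) (hunc : ℵ₀ < #G) (f : ℕ → G) :
    ∃ b, ∀ i, ρ.r (f i) < ρ.r b := by
  obtain ⟨b, hb⟩ := exists_bound hs hreg (range f)
    ((le_aleph0_iff_set_countable.2 (countable_range f)).trans_lt hunc)
  exact ⟨b, fun i => hb _ (mem_range_self i)⟩

lemma exists_Ab (hs : ρ.Small) (hreg : (#G).IsRegular) (hunc : ℵ₀ < #G) (γ : ℕ → G) (n : ℕ)
    (A : Set G) (hA : #A < #G) : ∃ b, ρ.Ab γ n b ∧ ∀ a ∈ A, ρ.r a < ρ.r b := by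
  obtain ⟨b, hb⟩ := exists_bound hs hreg (A ∪ range γ) ((mk_union_le _ _).trans_lt
    (add_lt_of_lt hreg.aleph0_le hA
      ((le_aleph0_iff_set_countable.2 (countable_range γ)).trans_lt hunc)))
  exact ⟨b, fun i _ => (hb _ (Or.inr (mem_range_self i))).le, fun a ha => hb a (Or.inl ha)⟩

/-- a positive set covered by few sets meets one of them in a positive set -/
lemma Pos.cover (hs : ρ.Small) (hreg : (#G).IsRegular) (hunc : ℵ₀ < #G) {γ : ℕ → G} {n : ℕ}
    {P : Set G} (hP : ρ.Pos γ n P) {D : Type u} (hD : #D < #G) (S : D → Set G)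
    (hS : ∀ y ∈ P, ∃ d, y ∈ S d) : ∃ d, ρ.Pos γ n (P ∩ S d) := by
  by_contra hcon
  push Not at hcon
  unfold Pos at hcon
  push Not at hcon
  choose a ha ha2 using hcon
  obtain ⟨b, hb1, hb2⟩ := exists_Ab hs hreg hunc γ n (range a) (mk_range_le.trans_lt hD)
  obtain ⟨y, hy, hg⟩ := hP b hb1
  obtain ⟨d, hd⟩ := hS y hy
  exact ha2 d y ⟨hy, hd⟩ (Gd.mono (ha d) (hb2 _ (mem_range_self d)).le hg)

/-- the root lemma -/
theorem exists_root (hs : ρ.Small) (hreg : (#G).IsRegular) (hunc : ℵ₀ < #G) (W : Set G)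
    (hW : #W = #G) (n : ℕ) : ∃ γ : ℕ → G, γ 0 = 1 ∧ ρ.Pos γ n W := by
  induction n with
  | zero =>
    refine ⟨fun _ => 1, rfl, fun a _ => ?_⟩
    by_contra hcon
    push Not at hcon
    have h1 : W ⊆ {y | ρ.r y ≤ ρ.r a} := by
      intro y hy
      by_contra h2
      exact hcon y hy ⟨not_le.1 h2, fun i hi => absurd hi (Nat.not_lt_zero i)⟩
    have h2 := (mk_le_mk_of_subset h1).trans_lt (hs a)
    rw [hW] at h2
    exact lt_irrefl _ h2
  | succ n ih =>
    obtain ⟨γ, hγ0, hγ⟩ := ih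
    by_contra hcon
    push Not at hcon
    have hcon2 : ∀ g : G, ∃ a, ρ.Ab γ n a ∧ ρ.r g ≤ ρ.r a ∧ ∀ y ∈ W, ρ.Gd γ n a y →
        ρ.pr (ρ.r a) (y * γ n) ≠ g := by
      intro g
      have h1 := hcon (Function.update γ (n + 1) g) (by
        rw [Function.update_of_ne (by omega)]; exact hγ0)
      unfold Pos at h1
      push Not at h1
      obtain ⟨a, ha, ha2⟩ := h1
      refine ⟨a, ?_, ?_, ?_⟩
      · intro i hi
        have := ha i (by omega)
        rwa [Function.update_of_ne (by omega)] at this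
      · have := ha (n + 1) le_rfl
        rwa [Function.update_self] at this
      · intro y hy hg hpr
        refine ha2 y hy ⟨hg.1, ?_⟩
        intro i hi
        rw [Function.update_of_ne (by omega)]
        rcases Nat.lt_succ_iff_lt_or_eq.1 hi with h | rfl
        · rw [Function.update_of_ne (by omega)]; exact hg.2 i h
        · rw [Function.update_self]; exact hpr
    choose a ha1 ha2 ha3 using hcon2
    have hstep : ∀ x : G, ∃ b, ρ.r x < ρ.r b ∧ ∀ g, ρ.r g ≤ ρ.r x → ρ.r (a g) < ρ.r b := by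
      intro x
      obtain ⟨b, hb⟩ := exists_bound hs hreg ({x} ∪ a '' {g | ρ.r g ≤ ρ.r x})
        ((mk_union_le _ _).trans_lt (add_lt_of_lt hreg.aleph0_le
          (by rw [mk_singleton]; exact one_lt_aleph0.trans hunc)
          (mk_image_le.trans_lt (hs x))))
      exact ⟨b, hb x (Or.inl rfl), fun g hg => hb _ (Or.inr ⟨g, hg, rfl⟩)⟩
    choose f hf1 hf2 using hstep
    obtain ⟨s0, hs0, -⟩ := exists_Ab hs hreg hunc γ n ∅ (by
      simpa using aleph0_pos.trans hunc)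
    let s : ℕ → G := fun m => f^[m] s0
    have hss : ∀ m, s (m + 1) = f (s m) := fun m => Function.iterate_succ_apply' _ _ _
    have hmono : StrictMono (fun m => ρ.r (s m)) := by
      apply strictMono_nat_of_lt_succ
      intro m
      rw [hss]
      exact hf1 _
    obtain ⟨w, hw⟩ := exists_bound_seq hs hreg hunc s
    have hwAb : ρ.Ab γ n w := hs0.mono (hw 0).le
    obtain ⟨y, hy, hg⟩ := hγ w hwAb
    obtain ⟨m, hm⟩ : ∃ m, ∀ i ∈ ρ.R (y * γ n), ¬ (ρ.r (s m) < i ∧ i ≤ ρ.r (s (m + 1))) := by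
      by_contra hcon
      push Not at hcon
      choose i hi1 hi2 hi3 using hcon
      have hinj : StrictMono i := by
        apply strictMono_nat_of_lt_succ
        intro m
        exact (hi3 m).trans_lt (hi2 (m + 1))
      have : (range i).Infinite := infinite_range_of_injective hinj.injective
      apply this
      apply (ρ.R (y * γ n)).finite_toSet.subset
      rintro _ ⟨m, rfl⟩
      exact hi1 m
    set g := ρ.pr (ρ.r (s m)) (y * γ n) with hgdef
    have hrg : ρ.r g ≤ ρ.r (s m) := ρ.pr_le (ρ.one_le _) _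
    have h1 : ρ.pr (ρ.r (s (m + 1))) (y * γ n) = g :=
      ρ.pr_eq_of_gap (hmono.monotone (Nat.le_succ m)) _ hm
    have h2 : ρ.r (a g) < ρ.r (s (m + 1)) := by
      rw [hss]; exact hf2 _ _ hrg
    have h3 : ρ.pr (ρ.r (a g)) (y * γ n) = g := by
      rw [← ρ.pr_pr h2.le, h1]
      exact ρ.pr_of_le (ha2 g)
    exact ha3 g y hy (Gd.mono (ha1 g) (h2.le.trans (hw _).le) hg) h3

end Rk

end TH444.OR
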