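import Mathlib
import Pool.Agent.TH444.OR.Root

/-! Counting the letters with small label, and the products with prescribed counts. -/

open Cardinal Set

namespace TH444.OR

universe u

namespace Rk

variable {G : Type u} [Group G] {ρ : Rk G} {L : Type u} [LinearOrder L]

/-- number of ordinals of `F` with label below `l` -/
def N (lab : Ordinal.{u} → L) (F : Finset Ordinal.{u}) (l : L) : ℕ :=
  (F.filter (fun i => lab i < l)).card

open Classical in
/-- the new letters of `y * γ s` other than the top one -/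
noncomputable def E (ρ : Rk G) (γ : ℕ → G) (s : ℕ) (y : G) : Finset Ordinal.{u} :=
  ((ρ.R (y * γ s)) \ (ρ.R (γ (s + 1)))).erase (ρ.r y)

lemma N_congr {lab : Ordinal.{u} → L} {F : Finset Ordinal.{u}} {l l' : L}
    (h : ∀ i ∈ F, (lab i < l ↔ lab i < l')) : N lab F l = N lab F l' := by
  unfold N
  congr 1
  apply Finset.filter_congr
  exact h

lemma N_step (lab : Ordinal.{u} → L) {γ : ℕ → G} {n : ℕ} {a y w : G} (ha : ρ.Ab γ n a)
    (hw : ρ.r w ≤ ρ.r a) (hy : ρ.Gd γ n a y) {s : ℕ} (hs : s < n) (l : L) :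
    N lab (ρ.R (w * (y * γ s))) l = N lab (ρ.R (w * γ (s + 1))) l +
      (if lab (ρ.r y) < l then 1 else 0) + N lab (E ρ γ s y) l := by
  classical
  have hz : ρ.r (y * γ s) = ρ.r y := ρ.mul_eq' ((ha s hs.le).trans_lt hy.1)
  have hpr := hy.2 s hs
  have h1 : ρ.R (γ (s + 1)) = (ρ.R (y * γ s)).filter (· ≤ ρ.r a) := by
    rw [← hpr, ρ.R_pr]
  have h2 : (ρ.R (y * γ s)) \ (ρ.R (γ (s + 1))) = (ρ.R (y * γ s)).filter (ρ.r a < ·) := by
    rw [h1]
    ext i
    simp only [Finset.mem_sdiff, Finset.mem_filter, not_and, not_le]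
    tauto
  have h3 : ρ.R (w * (y * γ s)) =
      ρ.R (w * γ (s + 1)) ∪ insert (ρ.r y) (E ρ γ s y) := by
    have h4 : ρ.r y ∈ (ρ.R (y * γ s)) \ (ρ.R (γ (s + 1))) := by
      rw [h2, Finset.mem_filter]
      refine ⟨?_, hy.1⟩
      rw [← hz]
      apply ρ.top_mem
      rw [hz]
      exact (ρ.one_le a).trans_lt hy.1
    rw [E, Finset.insert_erase h4, h2, ← ρ.R_mul_gt hw, ← hpr, ← ρ.R_mul_split hw]
    ext i
    rw [Finset.mem_union, Finset.mem_filter, Finset.mem_filter]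
    have := le_or_gt i (ρ.r a)
    tauto
  have h5 : Disjoint (ρ.R (w * γ (s + 1))) (insert (ρ.r y) (E ρ γ s y)) := by
    rw [Finset.disjoint_left]
    intro i hi hi2
    have h6 : i ≤ ρ.r a := (ρ.mem_R hi).2.1.trans (ρ.mul_le_of hw (ha (s + 1) hs))
    have h7 : ρ.r a < i := by
      rcases Finset.mem_insert.1 hi2 with rfl | h
      · exact hy.1
      · have h8 := (Finset.mem_erase.1 h).2
        rw [h2, Finset.mem_filter] at h8
        exact h8.2
    exact absurd h6 (not_le.2 h7)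
  have h9 : ρ.r y ∉ E ρ γ s y := by
    unfold E; exact Finset.notMem_erase _ _
  unfold N
  rw [h3, Finset.filter_union, Finset.card_union_of_disjoint
    (Finset.disjoint_filter_filter h5), Finset.filter_insert]
  split_ifs with h
  · rw [Finset.card_insert_of_notMem (fun h' => h9 (Finset.mem_filter.1 h').1)]
    ring
  · ring

/-- splitting a positive set by a separator of the labels of top ranks -/
theorem Pos.split (hs : ρ.Small) (hreg : (#G).IsRegular) (hunc : ℵ₀ < #G) {γ : ℕ → G} {n : ℕ}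
    {P : Set G} (hP : ρ.Pos γ n P) {Q : Set L} (hQ : #Q < #G)
    (hsep : ∀ a b : L, a < b → ∃ q ∈ Q, a < q ∧ q ≤ b) {lab : Ordinal.{u} → L}
    (hlab : ∀ x y : G, ρ.r x ≠ ρ.r y → lab (ρ.r x) ≠ lab (ρ.r y)) :
    ∃ q, ρ.Pos γ n (P ∩ {y | lab (ρ.r y) < q}) ∧ ρ.Pos γ n (P ∩ {y | q ≤ lab (ρ.r y)}) := by
  by_contra hcon
  have hcon2 : ∀ q : Q, ∃ a, ρ.Ab γ n a ∧ ((∀ y ∈ P, lab (ρ.r y) < q → ¬ ρ.Gd γ n a y) ∨
      (∀ y ∈ P, q ≤ lab (ρ.r y) → ¬ ρ.Gd γ n a y)) := by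
    intro q
    by_contra hq
    push Not at hq
    refine hcon ⟨q, ?_, ?_⟩
    · intro a ha
      obtain ⟨⟨y, hy, h1, h2⟩, -⟩ := hq a ha
      exact ⟨y, ⟨hy, h1⟩, h2⟩
    · intro a ha
      obtain ⟨-, ⟨y, hy, h1, h2⟩⟩ := hq a ha
      exact ⟨y, ⟨hy, h1⟩, h2⟩
  choose a ha1 ha2 using hcon2
  obtain ⟨b, hb1, hb2⟩ := exists_Ab hs hreg hunc γ n (range a) (mk_range_le.trans_lt hQ)
  obtain ⟨y, hy, hgy⟩ := hP b hb1
  obtain ⟨y', hy', hgy'⟩ := hP y (hb1.mono hgy.1.le)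
  have hgy'' : ρ.Gd γ n b y' := Gd.mono hb1 hgy.1.le hgy'
  have key : ∀ y ∈ P, ∀ y' ∈ P, ρ.Gd γ n b y → ρ.Gd γ n b y' →
      ¬ lab (ρ.r y) < lab (ρ.r y') := by
    intro y hy y' hy' hg hg' hlt
    obtain ⟨q, hq, h1, h2⟩ := hsep _ _ hlt
    have hab : ρ.r (a ⟨q, hq⟩) ≤ ρ.r b := (hb2 _ (mem_range_self (⟨q, hq⟩ : Q))).le
    rcases ha2 ⟨q, hq⟩ with h | h
    · exact h y hy h1 (Gd.mono (ha1 _) hab hg)
    · exact h y' hy' h2 (Gd.mono (ha1 _) hab hg')
  rcases lt_or_gt_of_ne (hlab y y' hgy'.1.ne) with h | h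
  · exact key y hy y' hy' hgy hgy'' h
  · exact key y' hy' y hy hgy'' hgy h

lemma exists_lists {Q : Set L} (hsep : ∀ a b : L, a < b → ∃ q ∈ Q, a < q ∧ q ≤ b)
    (lab : Ordinal.{u} → L) (l : L) (F : Finset Ordinal.{u}) (hF : ∀ i ∈ F, lab i ≠ l) :
    ∃ T1 T2 : List Q, (∀ q ∈ T1, (q : L) ≤ l) ∧ (∀ q ∈ T2, l < (q : L)) ∧
      ∀ i ∈ F, (∃ q ∈ T1, lab i < (q : L)) ∨ (∃ q ∈ T2, (q : L) ≤ lab i) := by
  classical
  induction F using Finset.induction_on with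
  | empty => exact ⟨[], [], by simp, by simp, by simp⟩
  | insert j F hj ih =>
    obtain ⟨T1, T2, h1, h2, h3⟩ := ih (fun i hi => hF i (Finset.mem_insert_of_mem hi))
    rcases lt_or_gt_of_ne (hF j (Finset.mem_insert_self _ _)) with h | h
    · obtain ⟨q, hq, hq1, hq2⟩ := hsep _ _ h
      refine ⟨⟨q, hq⟩ :: T1, T2, ?_, h2, ?_⟩
      · intro q' hq'
        rcases List.mem_cons.1 hq' with rfl | hq'
        · exact hq2
        · exact h1 q' hq'
      · intro i hi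
        rcases Finset.mem_insert.1 hi with rfl | hi
        · exact Or.inl ⟨⟨q, hq⟩, List.mem_cons_self, hq1⟩
        · rcases h3 i hi with ⟨q', hq', h'⟩ | h'
          · exact Or.inl ⟨q', List.mem_cons_of_mem _ hq', h'⟩
          · exact Or.inr h'
    · obtain ⟨q, hq, hq1, hq2⟩ := hsep _ _ h
      refine ⟨T1, ⟨q, hq⟩ :: T2, h1, ?_, ?_⟩
      · intro q' hq'
        rcases List.mem_cons.1 hq' with rfl | hq'
        · exact hq1
        · exact h2 q' hq'
      · intro i hi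
        rcases Finset.mem_insert.1 hi with rfl | hi
        · exact Or.inr ⟨⟨q, hq⟩, List.mem_cons_self, hq2⟩
        · rcases h3 i hi with h' | ⟨q', hq', h'⟩
          · exact Or.inl h'
          · exact Or.inr ⟨q', List.mem_cons_of_mem _ hq', h'⟩

omit [LinearOrder L] in
lemma E_ne {γ : ℕ → G} {s : ℕ} {y : G} (lab : Ordinal.{u} → L)
    (hlab : ∀ x y : G, ρ.r x ≠ ρ.r y → lab (ρ.r x) ≠ lab (ρ.r y)) {i : Ordinal.{u}}
    (hi : i ∈ E ρ γ s y) : lab i ≠ lab (ρ.r y) := by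
  classical
  unfold E at hi
  rw [Finset.mem_erase, Finset.mem_sdiff] at hi
  obtain ⟨hne, hi, -⟩ := hi
  obtain ⟨x, rfl⟩ := (ρ.mem_R hi).2.2
  exact hlab x y hne

/-- a positive subset on which the relevant data are constant -/
theorem exists_uniform (hs : ρ.Small) (hreg : (#G).IsRegular) (hunc : ℵ₀ < #G) {γ : ℕ → G} {n : ℕ}
    {W : Set G} (hW : ρ.Pos γ n W) {Q : Set L} (hQ : #Q < #G)
    (hsep : ∀ a b : L, a < b → ∃ q ∈ Q, a < q ∧ q ≤ b) {lab : Ordinal.{u} → L}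
    (hlab : ∀ x y : G, ρ.r x ≠ ρ.r y → lab (ρ.r x) ≠ lab (ρ.r y)) (x : G) :
    ∃ P ⊆ W, ρ.Pos γ n P ∧ ∃ (K : ℕ) (M : ℕ → ℕ),
      (∀ y ∈ P, N lab (ρ.R (x * γ n)) (lab (ρ.r y)) = K) ∧
      ∀ y ∈ P, ∀ y' ∈ P, ∀ s < n, N lab (E ρ γ s y) (lab (ρ.r y')) = M s := by
  classical
  let D : Type u := ULift.{u} ℕ × ULift.{u} (Fin n → ℕ) × (List Q × List Q)
  have hlist : #(List Q) < #G := (mk_list_le_max Q).trans_lt (max_lt hunc hQ)
  have hD : #D < #G := by
    have h1 : #(ULift.{u} ℕ) < #G := by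
      simpa using hunc
    have h2 : #(ULift.{u} (Fin n → ℕ)) < #G := by
      exact (mk_le_aleph0 (α := ULift.{u} (Fin n → ℕ))).trans_lt hunc
    simp only [D, mk_prod, lift_id]
    exact mul_lt_of_lt hreg.aleph0_le h1 (mul_lt_of_lt hreg.aleph0_le h2
      (mul_lt_of_lt hreg.aleph0_le hlist hlist))
  let S : D → Set G := fun d => {y | N lab (ρ.R (x * γ n)) (lab (ρ.r y)) = d.1.down ∧
    (∀ s : Fin n, N lab (E ρ γ s y) (lab (ρ.r y)) = d.2.1.down s) ∧
    (∀ q ∈ d.2.2.1, (q : L) ≤ lab (ρ.r y)) ∧ (∀ q ∈ d.2.2.2, lab (ρ.r y) < (q : L)) ∧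
    ∀ s < n, ∀ i ∈ E ρ γ s y, (∃ q ∈ d.2.2.1, lab i < (q : L)) ∨
      (∃ q ∈ d.2.2.2, (q : L) ≤ lab i)}
  obtain ⟨d, hd⟩ := Pos.cover hs hreg hunc hW hD S (by
    intro y _
    obtain ⟨T1, T2, h1, h2, h3⟩ := exists_lists hsep lab (lab (ρ.r y))
      ((Finset.range n).biUnion (fun s => E ρ γ s y)) (by
        intro i hi
        obtain ⟨s, -, hi⟩ := Finset.mem_biUnion.1 hi
        exact E_ne lab hlab hi)
    refine ⟨(⟨N lab (ρ.R (x * γ n)) (lab (ρ.r y))⟩,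
      ⟨fun s => N lab (E ρ γ s y) (lab (ρ.r y))⟩, (T1, T2)), rfl, fun _ => rfl, h1, h2, ?_⟩
    intro s hs i hi
    exact h3 i (Finset.mem_biUnion.2 ⟨s, Finset.mem_range.2 hs, hi⟩))
  refine ⟨W ∩ S d, inter_subset_left, hd, d.1.down,
    fun s => if h : s < n then d.2.1.down ⟨s, h⟩ else 0, fun y hy => hy.2.1, ?_⟩
  intro y hy y' hy' s hs
  change _ = (if h : s < n then d.2.1.down ⟨s, h⟩ else 0)
  rw [dif_pos hs, ← hy.2.2.1 ⟨s, hs⟩]
  apply N_congr
  intro i hi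
  rcases hy.2.2.2.2.2 s hs i hi with ⟨q, hq, h1⟩ | ⟨q, hq, h1⟩
  · exact ⟨fun _ => h1.trans_le (hy.2.2.2.1 q hq), fun _ => h1.trans_le (hy'.2.2.2.1 q hq)⟩
  · refine ⟨fun h => absurd h (not_lt.2 ((hy'.2.2.2.2.1 q hq).le.trans h1)),
      fun h => absurd h (not_lt.2 ((hy.2.2.2.2.1 q hq).le.trans h1))⟩

/-- the colouring number -/
noncomputable def c (ρ : Rk G) (lab : Ordinal.{u} → L) (z : G) : ℕ := N lab (ρ.R z) (lab (ρ.r z))

/-- the main combinatorial statement -/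
theorem exists_products (hs : ρ.Small) (hreg : (#G).IsRegular) (hunc : ℵ₀ < #G)
    {Q : Set L} (hQ : #Q < #G)
    (hsep : ∀ a b : L, a < b → ∃ q ∈ Q, a < q ∧ q ≤ b) {lab : Ordinal.{u} → L}
    (hlab : ∀ x y : G, ρ.r x ≠ ρ.r y → lab (ρ.r x) ≠ lab (ρ.r y)) (n : ℕ) (x : G) (W : Set G)
    (hW : #W = #G) :
    ∃ K, ∀ m ≤ n, ∃ l : List G, l.length = n + 1 ∧ (∀ y ∈ l, y ∈ W) ∧
      c ρ lab (x * l.prod) = K + m := by
  classical
  obtain ⟨γ, hγ0, hγ⟩ := exists_root hs hreg hunc W hW (n + 1)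
  obtain ⟨P, hPW, hP, K, M, hK, hM⟩ := exists_uniform hs hreg hunc hγ hQ hsep hlab x
  obtain ⟨q1, hL, hMR⟩ := Pos.split hs hreg hunc hP hQ hsep hlab
  obtain ⟨q2, hMi, hR⟩ := Pos.split hs hreg hunc hMR hQ hsep hlab
  -- the inductive claim
  have claim : ∀ l ≤ n, ∀ m ≤ l, ∃ t : List G, t.length = l ∧ (∀ y ∈ t, y ∈ W) ∧
      ∀ y' ∈ P, q1 ≤ lab (ρ.r y') → lab (ρ.r y') < q2 →
        N lab (ρ.R (x * t.prod * γ (n + 1 - l))) (lab (ρ.r y')) =
          K + ∑ s ∈ Finset.Ico (n + 1 - l) (n + 1), M s + m := by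
    intro l
    induction l with
    | zero =>
      intro _ m hm
      refine ⟨[], rfl, by simp, ?_⟩
      intro y' hy' _ _
      have : m = 0 := by omega
      subst this
      simpa using hK y' hy'
    | succ l ih =>
      intro hl m hm
      -- the class of the next element
      obtain ⟨P', m', hP'P, hP'pos, hm', hP'lab⟩ : ∃ (P' : Set G) (m' : ℕ), P' ⊆ P ∧
          ρ.Pos γ (n + 1) P' ∧ m' ≤ l ∧ ∀ y ∈ P', ∀ y' ∈ P, q1 ≤ lab (ρ.r y') →
            lab (ρ.r y') < q2 → m' + (if lab (ρ.r y) < lab (ρ.r y') then 1 else 0) = m := by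
        by_cases hml : m ≤ l
        · refine ⟨_, m, ?_, hR, hml, ?_⟩
          · exact inter_subset_left.trans inter_subset_left
          · intro y hy y' _ _ h2
            rw [if_neg (not_lt.2 (h2.le.trans hy.2))]
            rfl
        · refine ⟨_, l, ?_, hL, le_rfl, ?_⟩
          · exact inter_subset_left
          · intro y hy y' _ h1 _
            rw [if_pos (lt_of_lt_of_le hy.2 h1)]
            omega
      obtain ⟨t, ht1, ht2, ht3⟩ := ih (by omega) m' hm'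
      obtain ⟨a, ha, hax⟩ := exists_Ab hs hreg hunc γ (n + 1) {x * t.prod} (by
        rw [mk_singleton]; exact one_lt_aleph0.trans hunc)
      have hax' : ρ.r (x * t.prod) ≤ ρ.r a := (hax _ rfl).le
      obtain ⟨y, hy, hg⟩ := hP'pos a ha
      refine ⟨t ++ [y], by simp [ht1], ?_, ?_⟩
      · intro z hz
        rcases List.mem_append.1 hz with hz | hz
        · exact ht2 z hz
        · rw [List.mem_singleton.1 hz]; exact hPW (hP'P hy)
      · intro y' hy' h1 h2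
        have hs1 : n + 1 - l = (n + 1 - (l + 1)) + 1 := by omega
        have h3 := N_step lab ha hax' hg (s := n + 1 - (l + 1)) (by omega) (lab (ρ.r y'))
        have h4 : x * (t ++ [y]).prod * γ (n + 1 - (l + 1)) =
            x * t.prod * (y * γ (n + 1 - (l + 1))) := by
          simp [List.prod_append, mul_assoc]
        rw [h4, h3, ← hs1, ht3 y' hy' h1 h2, hM y (hP'P hy) y' hy' _ (by omega),
          Finset.sum_eq_sum_Ico_succ_bot (show n + 1 - (l + 1) < n + 1 by omega), ← hs1,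
          ← hP'lab y hy y' hy' h1 h2]
        ring
  refine ⟨K + ∑ s ∈ Finset.Ico 0 (n + 1), M s, fun m hm => ?_⟩
  obtain ⟨t, ht1, ht2, ht3⟩ := claim n le_rfl m hm
  obtain ⟨a, ha, hax⟩ := exists_Ab hs hreg hunc γ (n + 1) {x * t.prod} (by
    rw [mk_singleton]; exact one_lt_aleph0.trans hunc)
  have hax' : ρ.r (x * t.prod) ≤ ρ.r a := (hax _ rfl).le
  obtain ⟨y, hy, hg⟩ := hMi a ha
  have hyP : y ∈ P := hy.1.1
  refine ⟨t ++ [y], by simp [ht1], ?_, ?_⟩
  · intro z hz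
    rcases List.mem_append.1 hz with hz | hz
    · exact ht2 z hz
    · rw [List.mem_singleton.1 hz]; exact hPW hyP
  · have h4 : x * (t ++ [y]).prod = x * t.prod * (y * γ 0) := by
      simp [List.prod_append, mul_assoc, hγ0]
    have h5 : ρ.r (x * (t ++ [y]).prod) = ρ.r y := by
      rw [h4, hγ0, mul_one]
      exact ρ.mul_eq (hax'.trans_lt hg.1)
    have h3 := N_step lab ha hax' hg (s := 0) (by omega) (lab (ρ.r y))
    have h6 := ht3 y hyP hy.1.2 hy.2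
    have h7 : n + 1 - n = 0 + 1 := by omega
    rw [h7] at h6
    unfold c
    rw [h5, h4, h3, h6, if_neg (lt_irrefl _), hM y hyP y hyP 0 (by omega),
      Finset.sum_eq_sum_Ico_succ_bot (show 0 < n + 1 by omega)]
    ring

end Rk

end TH444.OR
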