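import Mathlib

/-! A linear order of size at least `κ` with fewer than `κ` separators, when `κ` is regular and
not a strong limit. -/

open Cardinal Set

namespace TH444.OR

universe u

theorem exists_labels {κ : Cardinal.{u}} (hreg : κ.IsRegular) (hlim : ∃ l < κ, κ ≤ 2 ^ l) :
    ∃ (L : Type u) (_ : LinearOrder L) (Q : Set L), κ ≤ #L ∧ #Q < κ ∧
      ∀ a b : L, a < b → ∃ q ∈ Q, a < q ∧ q ≤ b := by
  classical
  obtain ⟨l, ⟨hl1, hl2⟩, hmin⟩ : ∃ l, (l < κ ∧ κ ≤ 2 ^ l) ∧ ∀ l' < l, 2 ^ l' < κ := by
    have hwf := WellFounded.has_min (Cardinal.lt_wf) {l : Cardinal.{u} | l < κ ∧ κ ≤ 2 ^ l} hlim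
    obtain ⟨l, hl, h⟩ := hwf
    refine ⟨l, hl, fun l' hl' => ?_⟩
    by_contra hcon
    exact h l' ⟨hl'.trans hl.1, not_lt.1 hcon⟩ hl'
  have hinf : ℵ₀ ≤ l := by
    by_contra hcon
    have h1 : (2 : Cardinal.{u}) ^ l < ℵ₀ := power_lt_aleph0 (by exact_mod_cast natCast_lt_aleph0 (n := 2))
      (not_le.1 hcon)
    exact absurd (hl2.trans_lt h1) (not_lt.2 hreg.aleph0_le)
  let ι : Type u := l.ord.ToType
  have hι : #ι = l := by simp [ι]
  have hIic : ∀ i : ι, #(Iic i) < l := by
    intro i
    have h1 : Iic i = Iio i ∪ {i} := by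
      ext j; simp [le_iff_lt_or_eq]
    rw [h1]
    refine (mk_union_le _ _).trans_lt (add_lt_of_lt hinf (mk_Iio_toType_ord_lt i) ?_)
    rw [mk_singleton]
    exact one_lt_aleph0.trans_le hinf
  let L : Type u := Lex (ι → Bool)
  let ext : (i : ι) → (Iic i → Bool) → L := fun i f => toLex fun j =>
    if h : j ≤ i then f ⟨j, h⟩ else false
  let Q : Set L := ⋃ i, range (ext i)
  refine ⟨L, inferInstance, Q, ?_, ?_, ?_⟩
  · have h1 : #L = 2 ^ l := by
      change #(ι → Bool) = _
      rw [← hι]; simp
    rw [h1]; exact hl2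
  · rw [card_iUnion_lt_iff_forall_of_isRegular hreg (by rw [hι]; exact hl1)]
    intro i
    refine mk_range_le.trans_lt ?_
    have h1 : #(Iic i → Bool) = 2 ^ #(Iic i) := by simp
    rw [h1]
    exact hmin _ (hIic i)
  · intro a b hab
    obtain ⟨i, hi1, hi2⟩ : ∃ i, (∀ j < i, ofLex a j = ofLex b j) ∧ ofLex a i < ofLex b i := hab
    have hai : ofLex a i = false := by
      rw [Bool.lt_iff] at hi2; exact hi2.1
    have hbi : ofLex b i = true := by
      rw [Bool.lt_iff] at hi2; exact hi2.2
    refine ⟨ext i (fun j => ofLex b j), mem_iUnion.2 ⟨i, ⟨fun j => ofLex b j, rfl⟩⟩, ?_, ?_⟩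
    · refine ⟨i, ?_, ?_⟩
      · intro j hj
        change ofLex a j = (if h : j ≤ i then ofLex b j else false)
        rw [dif_pos hj.le]; exact hi1 j hj
      · change ofLex a i < (if h : i ≤ i then ofLex b i else false)
        rw [dif_pos le_rfl]; exact hi2
    · by_cases hall : ∀ j, ¬ j ≤ i → ofLex b j = false
      · refine le_of_eq ?_
        change (fun j => if h : j ≤ i then ofLex b j else false) = ofLex b
        funext j
        by_cases hj : j ≤ i
        · simp [hj]
        · simp [hj, hall j hj]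
      · push Not at hall
        refine le_of_lt ?_
        let S : Set ι := {j | ¬ j ≤ i ∧ ofLex b j ≠ false}
        have hS : S.Nonempty := by
          obtain ⟨j, hj1, hj2⟩ := hall
          exact ⟨j, not_le.2 hj1, by simpa using hj2⟩
        obtain ⟨k, hk, hkmin⟩ := WellFounded.has_min (wellFounded_lt (α := ι)) S hS
        refine ⟨k, ?_, ?_⟩
        · intro j hj
          change (if h : j ≤ i then ofLex b j else false) = ofLex b j
          by_cases hji : j ≤ i
          · simp [hji]
          · rw [dif_neg hji]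
            by_contra hcon
            exact hkmin j ⟨hji, fun h => hcon h.symm⟩ hj
        · change (if h : k ≤ i then ofLex b k else false) < ofLex b k
          rw [dif_neg hk.1, Bool.lt_iff]
          refine ⟨rfl, ?_⟩
          simpa using hk.2

end TH444.OR
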