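import Mathlib
import Pool.Agent.Helper473.Rank
import Pool.Agent.TH444.OR.Lab
import Pool.Agent.TH444.OR.Count

/-! Partitions of groups into countably many pieces meeting all products of large sets. -/

open Cardinal Set Filter Topology

namespace TH444.OR

universe u

lemma exists_val (i K : ℕ) : ∃ m ≤ 2 ^ (i + 1), padicValNat 2 (K + m + 1) = i := by
  have hA : 0 < 2 ^ (i + 1) := by positivity
  set t := (K + 2 ^ i) / 2 ^ (i + 1) with ht
  have h1 : 2 ^ (i + 1) * t ≤ K + 2 ^ i := Nat.mul_div_le _ _
  have h2 : K + 2 ^ i < 2 ^ (i + 1) * (t + 1) := Nat.lt_mul_div_succ _ hA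
  have hp : 2 ^ (i + 1) = 2 ^ i + 2 ^ i := by rw [pow_succ]; ring
  have h3 : 2 ^ (i + 1) * (t + 1) = 2 ^ (i + 1) * t + 2 ^ (i + 1) := by ring
  refine ⟨2 ^ (i + 1) * t + 2 ^ i - (K + 1), by omega, ?_⟩
  have h4 : K + (2 ^ (i + 1) * t + 2 ^ i - (K + 1)) + 1 = 2 ^ i * (2 * t + 1) := by
    have : 2 ^ i * (2 * t + 1) = 2 ^ (i + 1) * t + 2 ^ i := by rw [pow_succ]; ring
    rw [this]; omega
  rw [h4, padicValNat.mul (by positivity) (by positivity), padicValNat.prime_pow,
    padicValNat.eq_zero_of_not_dvd (by omega)]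
  rfl

/-- a colouring of a group with countably many colours, attaining each colour `i` on `x * W ^ n`
for all sets `W` of full size, where `n` depends on `i` only -/
theorem exists_colouring (G : Type u) [Group G] (hreg : (#G).IsRegular) (hunc : ℵ₀ < #G)
    (hlim : ∃ l < #G, #G ≤ 2 ^ l) : ∃ c : G → ℕ, ∀ i, ∀ (x : G) (W : Set G), #W = #G →
      ∃ l : List G, l.length = 2 ^ (i + 1) + 1 ∧ (∀ y ∈ l, y ∈ W) ∧ c (x * l.prod) = i := by
  classical
  obtain ⟨r, h1, h2, -, -, h5⟩ := H473.exists_rank hunc (∅ : Set G)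
    (by rw [mk_eq_zero]; exact aleph0_pos.trans hunc) (fun _ => 1)
  let ρ : Rk G := ⟨r, h1, h2⟩
  have hs : ρ.Small := h5
  obtain ⟨L, _, Q, hL, hQ, hsep⟩ := exists_labels hreg hlim
  obtain ⟨emb⟩ : Nonempty (G ↪ L) := Cardinal.le_def _ _ |>.1 hL
  let lab : Ordinal.{u} → L := fun i => emb (Function.invFun r i)
  have hlab : ∀ x y : G, ρ.r x ≠ ρ.r y → lab (ρ.r x) ≠ lab (ρ.r y) := by
    intro x y hxy h
    apply hxy
    have h3 : Function.invFun r (r x) = Function.invFun r (r y) := emb.injective h
    have h4 : ∀ x, r (Function.invFun r (r x)) = r x := fun x =>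
      Function.invFun_eq ⟨x, rfl⟩
    change r x = r y
    rw [← h4 x, h3, h4 y]
  refine ⟨fun z => padicValNat 2 (ρ.c lab z + 1), ?_⟩
  intro i x W hW
  obtain ⟨K, hK⟩ := Rk.exists_products hs hreg hunc hQ hsep hlab (2 ^ (i + 1)) x W hW
  obtain ⟨m, hm1, hm2⟩ := exists_val i K
  obtain ⟨l, hl1, hl2, hl3⟩ := hK m hm1
  refine ⟨l, hl1, hl2, ?_⟩
  change padicValNat 2 (ρ.c lab (x * l.prod) + 1) = i
  rw [hl3]; exact hm2

/-- the version for a group with a subgroup of suitable size -/
theorem exists_partition {G : Type u} [Group G] (S : Subgroup G) (hreg : (#S).IsRegular)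
    (hunc : ℵ₀ < #S) (hlim : ∃ l < #S, #S ≤ 2 ^ l) :
    ∃ D : ℕ → Set G, Pairwise (fun i j => Disjoint (D i) (D j)) ∧ ⋃ i, D i = Set.univ ∧
      ∀ _ : TopologicalSpace G, IsTopologicalGroup G →
        (∀ U ∈ 𝓝 (1:G), #(U ∩ S : Set G) = #S) → ∀ i, Dense (D i) := by
  classical
  obtain ⟨c, hc⟩ := exists_colouring S hreg hunc hlim
  let r : G → G := fun x => Quotient.out (x : G ⧸ S)
  have hr : ∀ x, (r x)⁻¹ * x ∈ S := by
    intro x
    apply QuotientGroup.eq.1
    exact QuotientGroup.out_eq' _
  have hrr : ∀ x (a : S), r (x * a) = r x := by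
    intro x a
    change Quotient.out ((x * a : G) : G ⧸ S) = Quotient.out (x : G ⧸ S)
    rw [QuotientGroup.mk_mul_of_mem _ a.2]
  let d : G → ℕ := fun x => c ⟨(r x)⁻¹ * x, hr x⟩
  refine ⟨fun i => {x | d x = i}, ?_, ?_, ?_⟩
  · intro i j hij
    rw [Set.disjoint_left]
    intro x hx hx'
    exact hij (hx.symm.trans hx')
  · rw [eq_univ_iff_forall]
    intro x
    exact mem_iUnion.2 ⟨d x, rfl⟩
  · intro _ _ hU i x
    rw [mem_closure_iff_nhds]
    intro U' hU'
    have hV : {v : G | x * v ∈ U'} ∈ 𝓝 (1:G) := by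
      have hcont : Continuous (fun v : G => x * v) := continuous_const.mul continuous_id
      have h1 := hcont.tendsto 1
      rw [mul_one] at h1
      exact h1 hU'
    set V := {v : G | x * v ∈ U'} with hVdef
    obtain ⟨V', hV', hV's⟩ := H473.exists_small_products (2 ^ (i + 1) + 1) V hV
    let W : Set S := {s | (s : G) ∈ V'}
    have hW : #W = #S := by
      rw [← hU V' hV']
      refine mk_congr ⟨fun s => ⟨s.1.1, s.2, s.1.2⟩, fun s => ⟨⟨s.1, s.2.2⟩, s.2.1⟩, ?_, ?_⟩
      · intro s; rfl
      · intro s; rfl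
    obtain ⟨l, hl1, hl2, hl3⟩ := hc i ⟨(r x)⁻¹ * x, hr x⟩ W hW
    refine ⟨x * (l.prod : S), ?_, ?_⟩
    swap
    · change d (x * (l.prod : S)) = i
      rw [← hl3]
      change c _ = c _
      congr 1
      apply Subtype.ext
      change (r (x * (l.prod : S)))⁻¹ * (x * (l.prod : S)) = ((r x)⁻¹ * x) * (l.prod : S)
      rw [hrr, mul_assoc]
    · have h1 : ((l.prod : S) : G) ∈ V := by
        have h2 : ((l.prod : S) : G) = (l.map (fun s : S => (s : G))).prod := by
          simp
        rw [h2]
        apply hV's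
        · simp [hl1]
        · intro y hy
          obtain ⟨s, hs, rfl⟩ := List.mem_map.1 hy
          exact hl2 s hs
      exact h1

/-- the version for the dispersion character -/
theorem exists_partition_dispersion {G : Type u} [Group G] [TopologicalSpace G]
    [IsTopologicalGroup G] (U₀ : Set G) (hU₀ : IsOpen U₀) (hne : U₀.Nonempty)
    (hmin : ∀ U : Set G, IsOpen U → U.Nonempty → #U₀ ≤ #U)
    (hreg : (#U₀).IsRegular) (hunc : ℵ₀ < #U₀) (hlim : ∃ l < #U₀, #U₀ ≤ 2 ^ l) :
    ∃ D : ℕ → Set G, Pairwise (fun i j => Disjoint (D i) (D j)) ∧ ⋃ i, D i = Set.univ ∧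
      ∀ i, Dense (D i) := by
  classical
  obtain ⟨u, hu⟩ := hne
  let U₁ : Set G := (fun v => u * v) ⁻¹' U₀
  have hU₁ : IsOpen U₁ := hU₀.preimage (continuous_const.mul continuous_id)
  have h1U₁ : (1:G) ∈ U₁ := by simpa [U₁] using hu
  have hcard : #U₁ = #U₀ := by
    refine mk_congr ⟨fun v => ⟨u * v.1, v.2⟩, fun w => ⟨u⁻¹ * w.1, ?_⟩, ?_, ?_⟩
    · change u * (u⁻¹ * w.1) ∈ U₀
      rw [mul_inv_cancel_left]; exact w.2
    · intro v; simp
    · intro w; simp
  let S : Subgroup G := Subgroup.closure U₁
  have hUS : U₁ ⊆ (S : Set G) := Subgroup.subset_closure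
  have hS : #S = #U₀ := by
    apply le_antisymm
    · have h1 : (S : Set G) ⊆ H473.cl (fun n l => if n = 0 then l.prod else l.prod⁻¹) U₁ := by
        intro x hx
        let T : Subgroup G :=
          { carrier := H473.cl (fun n l => if n = 0 then l.prod else l.prod⁻¹) U₁
            mul_mem' := by
              intro a b ha hb
              have := H473.cl_closed (fun n (l : List G) => if n = 0 then l.prod else l.prod⁻¹)
                U₁ 0 [a, b] (by
                  intro z hz
                  simp only [List.mem_cons, List.not_mem_nil, or_false] at hz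
                  rcases hz with rfl | rfl
                  · exact ha
                  · exact hb)
              simpa using this
            one_mem' := by
              have := H473.cl_closed (fun n (l : List G) => if n = 0 then l.prod else l.prod⁻¹)
                U₁ 0 [] (by simp)
              simpa using this
            inv_mem' := by
              intro a ha
              have := H473.cl_closed (fun n (l : List G) => if n = 0 then l.prod else l.prod⁻¹)
                U₁ 1 [a] (by
                  intro z hz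
                  simp only [List.mem_cons, List.not_mem_nil, or_false] at hz
                  rcases hz with rfl
                  exact ha)
              simpa using this }
        have h2 : S ≤ T := (Subgroup.closure_le T).2 (H473.subset_cl _ _)
        exact h2 hx
      refine (mk_le_mk_of_subset h1).trans ?_
      exact H473.card_cl _ _ hreg.aleph0_le hcard.le
    · rw [← hcard]
      exact mk_le_mk_of_subset hUS
  obtain ⟨D, hD1, hD2, hD3⟩ := exists_partition S (by rw [hS]; exact hreg)
    (by rw [hS]; exact hunc) (by rw [hS]; exact hlim)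
  refine ⟨D, hD1, hD2, hD3 inferInstance inferInstance ?_⟩
  intro V hV
  apply le_antisymm
  · exact mk_le_mk_of_subset inter_subset_right
  · rw [hS]
    have h3 : IsOpen (interior V ∩ U₁) := isOpen_interior.inter hU₁
    refine (hmin _ h3 ⟨1, mem_interior_iff_mem_nhds.2 hV, h1U₁⟩).trans ?_
    apply mk_le_mk_of_subset
    intro y hy
    exact ⟨interior_subset hy.1, hUS hy.2⟩

end TH444.OR
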